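import Pool.Agent.Helper15.RA.GoalsK

/-!
# Packet RA-F4: the lower bound of the function `a`
-/

set_option autoImplicit false

open LaurentPolynomial Pool.Agent.Helper15.RA

noncomputable section

namespace Pool.Agent.Helper19.RA

section gp

variable {V W : Type} [Group W] {Γ : SimpleGraph V} {G : V → Subgroup W} {sl : W → ℕ}

theorem vx (gp : GP Γ G sl) {u v : V} {k : W} (hk : k ≠ 1) (hu : k ∈ G u) (hv : k ∈ G v) :
    u = v := by
  by_contra h
  exact hk (gp.disj u v h k hu hv)

theorem sl_le_one (gp : GP Γ G sl) {v : V} {k : W} (hv : k ∈ G v) : sl k ≤ 1 := by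
  by_cases hk : k = 1
  · rw [hk, gp.one]
    exact Nat.zero_le 1
  · exact (gp.syl v k hv hk).le

theorem sl_prod_le (gp : GP Γ G sl) : ∀ K : List W, (∀ k ∈ K, ∃ v, k ∈ G v) →
    sl K.prod ≤ K.length := by
  intro K
  induction K with
  | nil => intro _; rw [List.prod_nil, gp.one]; exact Nat.zero_le _
  | cons k K ih =>
    intro h
    obtain ⟨v, hv⟩ := h k List.mem_cons_self
    have h1 := gp.mul k K.prod
    have h2 := sl_le_one gp hv
    have h3 := ih fun l hl => h l (List.mem_cons_of_mem k hl)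
    rw [List.prod_cons, List.length_cons]
    omega

/-- Pairs of nontrivial elements of the same vertex group. -/
def PG (G : V → Subgroup W) (r : W × W) : Prop := ∃ u, r.1 ∈ G u ∧ r.1 ≠ 1 ∧ r.2 ∈ G u ∧ r.2 ≠ 1

theorem repl (gp : GP Γ G sl) (h3 : ∀ (u : V) (k l x y : W), k ∈ G u → k ≠ 1 → l ∈ G u → l ≠ 1 →
    sl (x * k * y) = sl x + 1 + sl y → sl (x * l * y) = sl x + 1 + sl y) :
    ∀ Q : List (W × W), (∀ q ∈ Q, PG G q) → ∀ x y,
      sl (x * (Q.map Prod.fst).prod * y) = sl x + Q.length + sl y →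
      sl (x * (Q.map Prod.snd).prod * y) = sl x + Q.length + sl y := by
  intro Q
  induction Q with
  | nil => intro _ x y h; exact h
  | cons q Q ih =>
    intro hQ x y h
    obtain ⟨u, h4, h5, h6, h7⟩ := hQ q List.mem_cons_self
    rw [List.map_cons, List.prod_cons, List.length_cons] at h ⊢
    set R := (Q.map Prod.fst).prod with hR
    have e1 : x * (q.1 * R) * y = x * q.1 * (R * y) := by simp only [mul_assoc]
    rw [e1] at h
    have a1 := gp.mul R y
    have a2 : sl R ≤ Q.length := by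
      have := sl_prod_le gp (Q.map Prod.fst) (by
        intro k hk
        obtain ⟨r, hr, rfl⟩ := List.mem_map.1 hk
        obtain ⟨v, hv, _⟩ := hQ r (List.mem_cons_of_mem q hr)
        exact ⟨v, hv⟩)
      rwa [List.length_map] at this
    have a3 := gp.mul (x * q.1) (R * y)
    have a4 := gp.mul x q.1
    have a5 := sl_le_one gp h4
    have h8 := h3 u q.1 q.2 x (R * y) h4 h5 h6 h7 (by omega)
    have a6 := gp.mul (x * q.2) (R * y)
    have a7 := gp.mul x q.2
    have a8 := sl_le_one gp h6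
    have h9 := ih (fun r hr => hQ r (List.mem_cons_of_mem q hr)) (x * q.2) y (by
      rw [mul_assoc (x * q.2)]
      omega)
    have e2 : x * (q.2 * (Q.map Prod.snd).prod) * y = x * q.2 * (Q.map Prod.snd).prod * y := by
      simp only [mul_assoc]
    rw [e2]
    omega

theorem clq_repl (gp : GP Γ G sl) (Q : List (W × W)) (hQ : ∀ q ∈ Q, PG G q)
    (h : IsClq Γ G (Q.map Prod.fst)) : IsClq Γ G (Q.map Prod.snd) := by
  refine ⟨?_, ?_⟩
  · intro k hk
    obtain ⟨r, hr, rfl⟩ := List.mem_map.1 hk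
    obtain ⟨v, _, _, h1, h2⟩ := hQ r hr
    exact ⟨h2, v, h1⟩
  · have h1 := h.2
    rw [List.pairwise_map] at h1 ⊢
    refine List.Pairwise.imp_of_mem ?_ h1
    rintro a b ha hb ⟨u, v, huv, h2, h3⟩
    obtain ⟨u', h4, h5, h6, _⟩ := hQ a ha
    obtain ⟨v', h7, h8, h9, _⟩ := hQ b hb
    have e1 := vx gp h5 h2 h4
    have e2 := vx gp h8 h3 h7
    exact ⟨u, v, huv, e1 ▸ h6, e2 ▸ h9⟩

theorem clq_mem {K : List W} (h : IsClq Γ G K) : ∀ k ∈ K, ∃ v, k ∈ G v := fun k hk => (h.1 k hk).2

/-- Uniqueness of the syllables of a clique. -/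
theorem clq_uniq (gp : GP Γ G sl) (h1 : ∀ K : List W, IsClq Γ G K → sl K.prod = K.length) :
    ∀ P : List (W × W), (∀ r ∈ P, PG G r) → IsClq Γ G (P.map Prod.snd) →
      (P.map Prod.fst).prod = (P.map Prod.snd).prod → ∀ r ∈ P, r.1 = r.2 := by
  intro P
  induction P with
  | nil => intro _ _ _ r hr; exact absurd hr List.not_mem_nil
  | cons p P ih =>
    intro hP hK hprod
    obtain ⟨u, h2, h3, h4, h5⟩ := hP p List.mem_cons_self
    have hP' : ∀ r ∈ P, PG G r := fun r hr => hP r (List.mem_cons_of_mem p hr)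
    have hK' : IsClq Γ G (P.map Prod.snd) :=
      ⟨fun k hk => hK.1 k (List.mem_cons_of_mem _ hk), (List.pairwise_cons.1 hK.2).2⟩
    have hL' : IsClq Γ G (P.map Prod.fst) := by
      have := clq_repl gp (P.map Prod.swap) (by
        intro q hq
        obtain ⟨r, hr, rfl⟩ := List.mem_map.1 hq
        obtain ⟨v, a1, a2, a3, a4⟩ := hP' r hr
        exact ⟨v, a3, a4, a1, a2⟩) (by
        rw [List.map_map]
        exact hK')
      rw [List.map_map] at this
      exact this
    rw [List.map_cons, List.map_cons, List.prod_cons, List.prod_cons] at hprod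
    have key : p.1 = p.2 := by
      by_contra hne
      have hm : p.1⁻¹ * p.2 ≠ 1 := fun h => hne (inv_mul_eq_one.1 h)
      have hc : IsClq Γ G ((p.1⁻¹ * p.2) :: P.map Prod.snd) := by
        refine ⟨?_, ?_⟩
        · intro k hk
          rcases List.mem_cons.1 hk with rfl | hk
          · exact ⟨hm, u, (G u).mul_mem ((G u).inv_mem h2) h4⟩
          · exact hK'.1 k hk
        · rw [List.pairwise_cons]
          refine ⟨?_, hK'.2⟩
          intro l hl
          obtain ⟨u', v, huv, a1, a2⟩ := (List.pairwise_cons.1 hK.2).1 l hl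
          have e1 := vx gp h5 a1 h4
          subst e1
          exact ⟨u', v, huv, (G u').mul_mem ((G u').inv_mem h2) h4, a2⟩
      have b1 := h1 _ hc
      have b2 := h1 _ hL'
      rw [List.prod_cons, mul_assoc, ← hprod, inv_mul_cancel_left, b2, List.length_cons,
        List.length_map, List.length_map] at b1
      omega
    intro r hr
    rcases List.mem_cons.1 hr with rfl | hr
    · exact key
    · exact ih hP' hK' (by rw [key] at hprod; exact mul_left_cancel hprod) r hr

end gp

variable {I W V H : Type} [Group W] [Ring H] [Algebra ℤ[T;T⁻¹] H] (X : Ctx I W V H)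

theorem red_of (hE : E_1) {x y : W} {K : List W} (hK : X.Clq K)
    (h : X.sl (x * K.prod * y) = X.sl x + K.length + X.sl y) : X.Red x K y := by
  have h1 := sl_prod_le X.gp K (clq_mem hK)
  have h2 := X.gp.mul x K.prod
  have h3 := X.gp.mul K.prod y
  have h4 := X.gp.mul (x * K.prod) y
  have h5 := X.gp.mul x (K.prod * y)
  rw [← mul_assoc] at h5
  exact ⟨hK, by omega, by omega⟩

theorem red_repl (hE : E_1) {x y : W} (Q : List (W × W)) (hQ : ∀ q ∈ Q, PG X.G q)
    (h : X.Red x (Q.map Prod.fst) y) : X.Red x (Q.map Prod.snd) y := by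
  have h3 := (hE V W X.Γ X.G X.sl X.gp).2.2.1
  refine ⟨clq_repl X.gp Q hQ h.1, ?_, ?_⟩
  · have h1 := repl X.gp h3 Q hQ x 1 (by
      rw [mul_one, h.2.1, List.length_map, X.gp.one, add_zero])
    rw [mul_one, X.gp.one] at h1
    rw [h1, List.length_map]
    omega
  · have h1 := repl X.gp h3 Q hQ 1 y (by
      rw [one_mul, h.2.2, List.length_map, X.gp.one, zero_add])
    rw [one_mul, X.gp.one] at h1
    rw [h1, List.length_map]
    omega

theorem red_repl_mid (hE : E_1) {x y k l : W} {u : V} {L K : List W} (hk : k ∈ X.G u)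
    (hl : l ∈ X.G u) (hl1 : l ≠ 1) (h : X.Red x (L ++ k :: K) y) : X.Red x (L ++ l :: K) y := by
  have hk1 : k ≠ 1 := (h.1.1 k (by simp)).1
  have h1 := red_repl X hE (x := x) (y := y)
    (L.map (fun a => (a, a)) ++ (k, l) :: K.map fun a => (a, a)) (by
      intro q hq
      rcases List.mem_append.1 hq with hq | hq
      · obtain ⟨a, ha, rfl⟩ := List.mem_map.1 hq
        obtain ⟨a1, v, a2⟩ := h.1.1 a (List.mem_append_left _ ha)
        exact ⟨v, a2, a1, a2, a1⟩
      · rcases List.mem_cons.1 hq with rfl | hq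
        · exact ⟨u, hk, hk1, hl, hl1⟩
        · obtain ⟨a, ha, rfl⟩ := List.mem_map.1 hq
          obtain ⟨a1, v, a2⟩ := h.1.1 a (List.mem_append_right _ (List.mem_cons_of_mem k ha))
          exact ⟨v, a2, a1, a2, a1⟩) (by
      rw [List.map_append, List.map_cons, List.map_map, List.map_map]
      simpa [Function.comp_def] using h)
  rw [List.map_append, List.map_cons, List.map_map, List.map_map] at h1
  simpa [Function.comp_def] using h1

theorem red_drop (hE : E_1) {x y k : W} {L K : List W} (h : X.Red x (L ++ k :: K) y) :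
    X.Red x (L ++ K) y := by
  have hp := (hE V W X.Γ X.G X.sl X.gp).2.1
  obtain ⟨c1, e1⟩ := hp (L ++ k :: K) (k :: (L ++ K)) h.1 List.perm_middle
  obtain ⟨c2, e2⟩ := hp (L ++ k :: K) ((L ++ K) ++ [k]) h.1
    (List.perm_middle.trans (List.perm_append_comm (l₁ := [k]) (l₂ := L ++ K)))
  obtain ⟨v, hv⟩ := (h.1.1 k (by simp)).2
  have hk1 := sl_le_one X.gp hv
  have hc : X.Clq (L ++ K) := ⟨fun l hl => c1.1 l (List.mem_cons_of_mem k hl),
    (List.pairwise_cons.1 c1.2).2⟩
  have h0 := sl_prod_le X.gp (L ++ K) (clq_mem hc)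
  have h1 := h.2.1
  have h2 := h.2.2
  rw [e2, List.prod_append, List.prod_singleton, ← mul_assoc] at h1
  rw [e1, List.prod_cons, mul_assoc] at h2
  have h3 := X.gp.mul (x * (L ++ K).prod) k
  have h4 := X.gp.mul k ((L ++ K).prod * y)
  have h5 := X.gp.mul x (L ++ K).prod
  have h6 := X.gp.mul (L ++ K).prod y
  have e3 : (L ++ k :: K).length = (L ++ K).length + 1 := by simp; omega
  rw [e3] at h1 h2
  exact ⟨hc, by omega, by omega⟩

theorem t_left : ∀ (L : List W) (x : W), (∀ l ∈ L, ∃ v, l ∈ X.G v ∧ l ≠ 1) →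
    X.sl (x * L.prod) = X.sl x + L.length →
    X.D.t (x * L.prod) = X.D.t x * (L.map X.D.t).prod := by
  intro L
  induction L with
  | nil => intro x _ _; simp
  | cons l L ih =>
    intro x hL h
    obtain ⟨v, hv, hl⟩ := hL l List.mem_cons_self
    have h1 := X.gp.syl v l hv hl
    have h2 := X.gp.mul x l
    have h3 := sl_prod_le X.gp L fun k hk =>
      let ⟨v, hv, _⟩ := hL k (List.mem_cons_of_mem l hk)
      ⟨v, hv⟩
    have h4 := X.gp.mul (x * l) L.prod
    rw [List.prod_cons, ← mul_assoc, List.length_cons] at h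
    rw [List.prod_cons, ← mul_assoc, ih (x * l) (fun k hk => hL k (List.mem_cons_of_mem l hk))
      (by omega), ← X.D.mul x l (X.len x l (by omega)), List.map_cons, List.prod_cons, mul_assoc]

theorem t_right : ∀ (L : List W) (y : W), (∀ l ∈ L, ∃ v, l ∈ X.G v ∧ l ≠ 1) →
    X.sl (L.prod * y) = L.length + X.sl y →
    X.D.t (L.prod * y) = (L.map X.D.t).prod * X.D.t y := by
  intro L
  induction L with
  | nil => intro y _ _; simp
  | cons l L ih =>
    intro y hL h
    obtain ⟨v, hv, hl⟩ := hL l List.mem_cons_self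
    have h1 := X.gp.syl v l hv hl
    have h3 := sl_prod_le X.gp L fun k hk =>
      let ⟨v, hv, _⟩ := hL k (List.mem_cons_of_mem l hk)
      ⟨v, hv⟩
    have h2 := X.gp.mul L.prod y
    have h4 := X.gp.mul l (L.prod * y)
    rw [List.prod_cons, mul_assoc, List.length_cons] at h
    rw [List.prod_cons, mul_assoc, ← X.D.mul l (L.prod * y) (X.len l _ (by omega)),
      ih y (fun k hk => hL k (List.mem_cons_of_mem l hk)) (by omega), List.map_cons,
      List.prod_cons, mul_assoc]

theorem t_comm (h1 : H_1) (hE : E_1) {u v : V} {g h : W} (hg : g ∈ X.G u) (hh : h ∈ X.G v)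
    (huv : X.Γ.Adj u v) : X.D.t g * X.D.t h = X.D.t h * X.D.t g := by
  have ht1 : X.D.t 1 = 1 := (h1 I W H X.M X.cs X.L X.D.toHecke1.toHecke0).1
  by_cases g1 : g = 1
  · rw [g1, ht1, one_mul, mul_one]
  by_cases k1 : h = 1
  · rw [k1, ht1, one_mul, mul_one]
  have hc := (hE V W X.Γ X.G X.sl X.gp).1
  have e1 := hc [g, h] ⟨by
    intro k hk
    simp only [List.mem_cons, List.not_mem_nil, or_false] at hk
    rcases hk with rfl | rfl
    · exact ⟨g1, u, hg⟩
    · exact ⟨k1, v, hh⟩, by
    simp only [List.pairwise_cons, List.mem_cons, List.not_mem_nil, or_false, forall_eq,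
      List.Pairwise.nil, and_true, IsEmpty.forall_iff, implies_true]
    exact ⟨u, v, huv, hg, hh⟩⟩
  have e2 := X.gp.comm u v huv g hg h hh
  simp only [List.prod_cons, List.prod_nil, mul_one, List.length_cons, List.length_nil] at e1
  have e3 := X.gp.syl u g hg g1
  have e4 := X.gp.syl v h hh k1
  rw [X.D.mul g h (X.len g h (by omega)), X.D.mul h g (X.len h g (by rw [← e2]; omega)), e2]

/-- A triple `(g, h, k)` in a vertex group, with nonzero top coefficient of `h_(g,h,k)`. -/
def QG (q : W × W × W) : Prop := ∃ u, q.1 ∈ X.G u ∧ q.2.1 ∈ X.G u ∧ q.2.2 ∈ X.G u ∧ q.2.2 ≠ 1 ∧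
  (X.h q.1 q.2.1 q.2.2).coeff (X.α q.2.2) ≠ 0

theorem QG.alpha {q : W × W × W} (h : QG X q) :
    X.α q.1 = X.α q.2.2 ∧ X.α q.2.1 = X.α q.2.2 ∧ 0 < X.α q.2.2 ∧ q.1 ≠ 1 ∧ q.2.1 ≠ 1 := by
  obtain ⟨u, h1, h2, h3, h4, h5⟩ := h
  obtain ⟨a1, a2⟩ := X.p8 u q.1 h1 q.2.1 h2 q.2.2 h3 h5
  have a3 := X.a_pos u q.2.2 h3 h4
  refine ⟨a1, a2, a3, fun h => ?_, fun h => ?_⟩
  · rw [h, X.a_one] at a1
    omega
  · rw [h, X.a_one] at a2
    omega

theorem t_prod (h1 : H_1) (hE : E_1) : ∀ Q : List (W × W × W), (∀ q ∈ Q, QG X q) →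
    X.Clq (Q.map fun q => q.2.2) →
    (Q.map fun q => X.D.t q.1).prod * (Q.map fun q => X.D.t q.2.1).prod =
      (Q.map fun q => X.D.t q.1 * X.D.t q.2.1).prod := by
  intro Q
  induction Q with
  | nil => intro _ _; simp
  | cons q Q ih =>
    intro hQ hK
    obtain ⟨u, a1, a2, a3, a4, _⟩ := hQ q List.mem_cons_self
    have hc : Commute (X.D.t q.2.1) (Q.map fun q => X.D.t q.1).prod := by
      apply Commute.list_prod_right
      intro z hz
      obtain ⟨r, hr, rfl⟩ := List.mem_map.1 hz
      obtain ⟨v, b1, b2, b3, b4, _⟩ := hQ r (List.mem_cons_of_mem q hr)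
      obtain ⟨u', v', huv, c1, c2⟩ := (List.pairwise_cons.1 hK.2).1 r.2.2
        (List.mem_map.2 ⟨r, hr, rfl⟩)
      have e1 := vx X.gp a4 c1 a3
      have e2 := vx X.gp b4 c2 b3
      subst e1
      subst e2
      exact t_comm X h1 hE a2 b1 huv
    have hK' : X.Clq (Q.map fun q => q.2.2) :=
      ⟨fun k hk => hK.1 k (List.mem_cons_of_mem _ hk), (List.pairwise_cons.1 hK.2).2⟩
    have h2 := ih (fun r hr => hQ r (List.mem_cons_of_mem q hr)) hK'
    simp only [List.map_cons, List.prod_cons]
    rw [← h2]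
    calc X.D.t q.1 * (Q.map fun q => X.D.t q.1).prod *
          (X.D.t q.2.1 * (Q.map fun q => X.D.t q.2.1).prod)
        = X.D.t q.1 * ((Q.map fun q => X.D.t q.1).prod * X.D.t q.2.1) *
          (Q.map fun q => X.D.t q.2.1).prod := by simp only [mul_assoc]
      _ = X.D.t q.1 * (X.D.t q.2.1 * (Q.map fun q => X.D.t q.1).prod) *
          (Q.map fun q => X.D.t q.2.1).prod := by rw [hc.eq]
      _ = _ := by simp only [mul_assoc]

/-- The product `T_x ∏ c_l ∏ (T_g T_h) T_y`. -/
def mid (x y : W) (L : List W) (Q : List (W × W × W)) : H :=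
  X.D.t x * (L.map X.D.c).prod * (Q.map fun q => X.D.t q.1 * X.D.t q.2.1).prod * X.D.t y

theorem mid_cons (x y : W) (L : List W) (q : W × W × W) (Q : List (W × W × W))
    (η : W →₀ ℤ[T;T⁻¹]) (h : X.D.t q.1 * X.D.t q.2.1 = η.sum fun l p => p • X.D.c l) :
    mid X x y L (q :: Q) = ∑ l ∈ η.support, η l • mid X x y (L ++ [l]) Q := by
  unfold mid
  rw [List.map_cons, List.prod_cons, h, Finsupp.sum]
  simp only [Finset.mul_sum, Finset.sum_mul, List.map_append, List.prod_append, List.map_cons,
    List.map_nil, List.prod_cons, List.prod_nil, mul_one, smul_mul_assoc, mul_smul_comm]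
  refine Finset.sum_congr rfl fun l _ => ?_
  simp only [mul_assoc]

theorem mid_one (h2 : H_2) (x y : W) (L : List W) (Q : List (W × W × W)) :
    mid X x y (L ++ [1]) Q = mid X x y L Q := by
  have hc1 : X.D.c 1 = 1 := (h2 I W H X.M X.cs X.L X.wt X.D).2.2.2.2.2.2.2.1
  unfold mid
  simp [hc1]

theorem claimA (h2 : H_2) (hE : E_1) (hP : K_P) (hSB : ∀ n, X.SB n) (M : ℕ) (x y : W) :
    ∀ (Q : List (W × W × W)) (L : List W), (∀ q ∈ Q, QG X q) →
      X.Red x (L ++ Q.map fun q => q.2.2) y →
      X.Lam M (X.sl x + L.length + Q.length + X.sl y) ((M : ℤ) - X.aK L) (mid X x y L Q) := by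
  intro Q
  induction Q with
  | nil =>
    intro L _ h
    rw [List.map_nil, List.append_nil] at h
    have e0 : (L.map fun l => (l, false)).map Prod.fst = L := by
      rw [List.map_map]
      simp [Function.comp_def]
    have h1 := hSB (X.sl x + L.length + X.sl y + 1) M x (L.map fun l => (l, false)) y
      (by rw [e0]; exact h) (by rw [List.length_map]; omega)
    unfold Ctx.PB at h1
    have h3 := h1.lam
    rw [e0, List.length_map, List.map_map] at h3
    have e1 : mid X x y L [] = X.D.t x * (L.map (X.e ∘ fun l => (l, false))).prod * X.D.t y := by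
      unfold mid
      rw [List.map_nil, List.prod_nil, mul_one]
      rfl
    rw [e1, List.length_nil, add_zero]
    refine h3.mono le_rfl ?_
    have := X.eps_nonneg M x L y
    omega
  | cons q Q ih =>
    intro L hQ h
    have hQ' : ∀ r ∈ Q, QG X r := fun r hr => hQ r (List.mem_cons_of_mem q hr)
    obtain ⟨u, a1, a2, a3, a4, a5⟩ := hQ q List.mem_cons_self
    obtain ⟨η, h3, h4⟩ := hP I W V H X u q.1 q.2.1 a1 a2
    rw [mid_cons X x y L q Q η h3]
    rw [List.map_cons] at h
    refine Ctx.Lam.sum fun l hl => ?_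
    obtain ⟨b1, b2, _, _⟩ := h4 l
    have hlu := b1 (Finsupp.mem_support_iff.1 hl)
    by_cases hl1 : l = 1
    · rw [hl1, mid_one X h2]
      rw [hl1, X.a_one] at b2
      refine (ih L hQ' (red_drop X hE h)).smul_le b2 ?_ ?_
      · rw [List.length_cons]
        omega
      · push_cast
        omega
    · have h5 := red_repl_mid X hE a3 hlu hl1 h
      have h6 := ih (L ++ [l]) hQ' (by rw [List.append_assoc]; exact h5)
      refine h6.smul_le b2 ?_ ?_
      · rw [List.length_append, List.length_cons, List.length_cons, List.length_nil]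
        omega
      · rw [Ctx.aK_append, Ctx.aK_cons, Ctx.aK_nil]
        push_cast
        omega

section psi

variable (b : Module.Basis W ℤ[T;T⁻¹] H)

/-- The coefficient of `v^M` in the coordinate `z`. -/
def psi (M : ℕ) (z : W) : H →+ ℤ where
  toFun Z := (b.repr Z z).coeff (M : ℤ)
  map_zero' := by
    rw [map_zero, Finsupp.zero_apply]
    rfl
  map_add' Y Z := by
    rw [map_add, Finsupp.add_apply, AddMonoidAlgebra.coeff_add, Finsupp.add_apply]

theorem psi_apply (M : ℕ) (z : W) (Z : H) : psi b M z Z = (b.repr Z z).coeff (M : ℤ) := rfl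

variable (hb : ∀ w, b w = X.D.c w)

include hb

theorem repr_sum (Z : H) : (b.repr Z).sum (fun z p => p • X.D.c z) = Z := by
  have h := b.linearCombination_repr Z
  rw [Finsupp.linearCombination_apply] at h
  conv_rhs => rw [← h]
  simp only [hb]

theorem psi_lam (hF : F_2) (hSA : ∀ n, X.SA n) {M n : ℕ} {z : W} (hz : ¬ X.Ge (M + 1) z) {Z : H}
    (h : X.Lam M n ((M : ℤ) - 1) Z) : psi b M z Z = 0 := by
  have h1 := (hF I W V H X hSA M (b.repr Z)).1 n ((M : ℤ) - 1) (by
    rw [repr_sum X b hb]; exact h) z hz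
  rw [psi_apply]
  exact h1 M (by omega)

theorem psi_idl (hF : F_2) (hSA : ∀ n, X.SA n) {M : ℕ} {z : W} (hz : ¬ X.Ge (M + 1) z) {Z : H}
    (h : Z ∈ X.Idl M) : psi b M z Z = 0 := by
  have h1 := (hF I W V H X hSA M (b.repr Z)).2 (by rw [repr_sum X b hb]; exact h) z hz
  rw [psi_apply, h1]
  rfl

variable (hb1 : ∀ w, b.repr (X.D.t w) w = 1) (hb2 : ∀ w y, y ≠ w → DegLE (-1) (b.repr (X.D.t w) y))

include hb2

omit hb in
theorem psi_low {M n : ℕ} {z : W} (hn : n < X.sl z) {Z : H} (h : X.Low M n M Z) :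
    psi b M z Z = 0 := by
  have e : Z = ∑ w ∈ (X.D.t.repr Z).support, X.D.t.repr Z w • X.D.t w := by
    have h := X.D.t.linearCombination_repr Z
    rw [Finsupp.linearCombination_apply] at h
    exact h.symm
  rw [e, map_sum]
  refine Finset.sum_eq_zero fun w hw => ?_
  obtain ⟨h1, h2⟩ := h w
  have h3 := (h2 (Finsupp.mem_support_iff.1 hw)).2
  have h4 : z ≠ w := fun h => by rw [h] at hn; omega
  rw [psi_apply, map_smul, Finsupp.smul_apply, smul_eq_mul]
  exact (h1.mul (hb2 w z h4)) M (by omega)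

theorem psi_lam' (hF : F_2) (hSA : ∀ n, X.SA n) {M n : ℕ} {z : W} (hz : ¬ X.Ge (M + 1) z)
    (hn : n < X.sl z) {Z : H} (h : X.Lam M n M Z) : psi b M z Z = 0 := by
  obtain ⟨l, h1, h2⟩ := h
  have e : Z = l + (Z - l) := by abel
  rw [e, map_add, psi_low X b hb2 hn h1, psi_idl X b hb hF hSA hz h2, add_zero]

include hb1

omit hb in
theorem psi_t {M : ℕ} {z w : W} {p : ℤ[T;T⁻¹]} (hp : DegLE M p) [Decidable (w = z)] :
    psi b M z (p • X.D.t w) = if w = z then p.coeff (M : ℤ) else 0 := by
  rw [psi_apply, map_smul, Finsupp.smul_apply, smul_eq_mul]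
  split_ifs with h
  · rw [h, hb1, mul_one]
  · exact (hp.mul (hb2 w z (Ne.symm h))) M (by omega)

end psi

theorem red_fst (hE : E_1) {x y : W} {P : List (W × W)} (hP : ∀ r ∈ P, PG X.G r) {K : List W}
    (h : X.Red x (P.map Prod.snd ++ K) y) : X.Red x (P.map Prod.fst ++ K) y := by
  have h1 := red_repl X hE (x := x) (y := y) (P.map Prod.swap ++ K.map fun a => (a, a)) (by
      intro q hq
      rcases List.mem_append.1 hq with hq | hq
      · obtain ⟨r, hr, rfl⟩ := List.mem_map.1 hq
        obtain ⟨v, a1, a2, a3, a4⟩ := hP r hr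
        exact ⟨v, a3, a4, a1, a2⟩
      · obtain ⟨a, ha, rfl⟩ := List.mem_map.1 hq
        obtain ⟨a1, v, a2⟩ := h.1.1 a (List.mem_append_right _ ha)
        exact ⟨v, a2, a1, a2, a1⟩) (by
      rw [List.map_append, List.map_map, List.map_map]
      simpa [Function.comp_def] using h)
  rw [List.map_append, List.map_map, List.map_map] at h1
  simpa [Function.comp_def] using h1

theorem aK_fst {P : List (W × W)} (h : ∀ r ∈ P, X.α r.1 = X.α r.2) :
    X.aK (P.map Prod.fst) = X.aK (P.map Prod.snd) := by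
  unfold Ctx.aK
  rw [List.map_map, List.map_map]
  exact congrArg List.sum (List.map_congr_left fun r hr => h r hr)

open Classical in
theorem base (hE : E_1) (hKE : K_E) (hKD : K_D) (hF : F_2) (hSA : ∀ n, X.SA n)
    (hSB : ∀ n, X.SB n) (b : Module.Basis W ℤ[T;T⁻¹] H) (hb : ∀ w, b w = X.D.c w)
    (hb1 : ∀ w, b.repr (X.D.t w) w = 1) (hb2 : ∀ w y, y ≠ w → DegLE (-1) (b.repr (X.D.t w) y))
    (M : ℕ) (x y z : W) (hz : ¬ X.Ge (M + 1) z) (P : List (W × W)) (p : ℤ[T;T⁻¹])
    (hP : ∀ r ∈ P, PG X.G r ∧ X.α r.1 = X.α r.2) (hK : X.Clq (P.map Prod.snd))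
    (hzx : z = x * (P.map Prod.snd).prod * y) (hsl : X.sl z = X.sl x + P.length + X.sl y)
    (hM : X.aK (P.map Prod.snd) = M) (hp : DegLE M p) :
    psi b M z (p • mid X x y (P.map Prod.fst) []) =
      if ∀ r ∈ P, r.1 = r.2 then p.coeff (M : ℤ) else 0 := by
  have hPG : ∀ r ∈ P, PG X.G r := fun r hr => (hP r hr).1
  have hswap : ∀ q ∈ P.map Prod.swap, PG X.G q := by
    intro q hq
    obtain ⟨r, hr, rfl⟩ := List.mem_map.1 hq
    obtain ⟨v, a1, a2, a3, a4⟩ := hPG r hr
    exact ⟨v, a3, a4, a1, a2⟩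
  have es1 : (P.map Prod.swap).map Prod.fst = P.map Prod.snd := by
    rw [List.map_map]
    rfl
  have es2 : (P.map Prod.swap).map Prod.snd = P.map Prod.fst := by
    rw [List.map_map]
    rfl
  have h3 := (hE V W X.Γ X.G X.sl X.gp).2.2.1
  set L := P.map Prod.fst with hL
  have hLlen : L.length = P.length := List.length_map _
  have hcL : X.Clq L := by
    have := clq_repl X.gp (P.map Prod.swap) hswap (by rw [es1]; exact hK)
    rwa [es2] at this
  have hslL : X.sl (x * L.prod * y) = X.sl x + L.length + X.sl y := by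
    have := repl X.gp h3 (P.map Prod.swap) hswap x y (by
      rw [es1, ← hzx, hsl, List.length_map])
    rw [es2, List.length_map] at this
    rw [this, hLlen]
  have haL : X.aK L = M := by
    rw [hL, aK_fst X fun r hr => (hP r hr).2, hM]
  have hred := red_of X hE hcL hslL
  set A : H := X.D.t x * ((L.map fun l => (l, false)).map X.e).prod * X.D.t y with hA
  set B : H := X.D.t x * ((L.map fun l => (l, true)).map X.e).prod * X.D.t y with hB
  have e1 : mid X x y L [] = A := by
    rw [hA, List.map_map]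
    unfold mid
    rw [List.map_nil, List.prod_nil, mul_one]
    rfl
  have e2 : p • mid X x y L [] = p • (A - B) + p • (B - X.D.t (x * L.prod * y)) +
      p • X.D.t (x * L.prod * y) := by
    rw [e1, ← smul_add, ← smul_add]
    congr 1
    abel
  rw [e2, map_add, map_add]
  have ef1 : (L.map fun l => (l, false)).map Prod.fst = L := by
    rw [List.map_map]
    simp [Function.comp_def]
  have ef2 : (L.map fun l => (l, true)).map Prod.fst = L := by
    rw [List.map_map]
    simp [Function.comp_def]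
  -- the difference of the flags
  have v1 : psi b M z (p • (A - B)) = 0 := by
    by_cases hL0 : L = []
    · have : A - B = 0 := by
        rw [hA, hB, hL0]
        simp
      rw [this, smul_zero, map_zero]
    · have hpos : 0 < L.length := List.length_pos_iff.2 hL0
      have h4 := hKD I W V H X (X.sl x + L.length + X.sl y) (hSB _) M x
        (L.map fun l => (l, false)) (L.map fun l => (l, true)) y (by rw [ef1, ef2])
        (by rw [ef1]; exact hred) (by rw [List.length_map])
      rw [ef1, List.length_map, haL] at h4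
      have h5 := h4.lam
      have h6 := X.eps_nonneg M x L y
      refine psi_lam' X b hb hb2 hF hSA hz (n := X.sl x + L.length + X.sl y - 1) ?_ ?_
      · rw [hsl, ← hLlen]
        omega
      · exact h5.smul_le hp le_rfl (by omega)
  -- the expansion
  have v2 : psi b M z (p • (B - X.D.t (x * L.prod * y))) = 0 := by
    have h4 := hKE I W V H X x L y hcL hslL
    have e3 : X.D.t x * (L.map fun k => X.e (k, true)).prod * X.D.t y = B := by
      have e4 : ∀ N : List W, (N.map fun k => X.e (k, true)) =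
          (N.map fun l => (l, true)).map X.e := by
        intro N
        rw [List.map_map]
        rfl
      rw [hB, e4]
    rw [e3] at h4
    set D : H := B - X.D.t (x * L.prod * y) with hD
    have h5 : X.Lam M (X.sl x + L.length + X.sl y) (-1) D := by
      have e : D = ∑ w ∈ (X.D.t.repr D).support, X.D.t.repr D w • X.D.t w := by
        have h := X.D.t.linearCombination_repr D
        rw [Finsupp.linearCombination_apply] at h
        exact h.symm
      rw [e]
      refine Ctx.Lam.sum fun w hw => ?_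
      obtain ⟨h6, h7⟩ := h4 w
      have h8 := (h7 (Finsupp.mem_support_iff.1 hw)).1
      have h9 := (hSA (X.sl w + 1) M w (by omega)).1.lam
      exact h9.smul_le h6 (by omega) (by omega)
    exact psi_lam X b hb hF hSA hz (h5.smul_le hp le_rfl (by omega))
  rw [v1, v2, zero_add, zero_add, psi_t X b hb1 hb2 hp]
  have hiff : x * L.prod * y = z ↔ ∀ r ∈ P, r.1 = r.2 := by
    constructor
    · intro h
      rw [hzx] at h
      have h4 : L.prod = (P.map Prod.snd).prod := mul_left_cancel (mul_right_cancel h)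
      exact clq_uniq X.gp (hE V W X.Γ X.G X.sl X.gp).1 P hPG hK h4
    · intro h
      rw [hzx, hL, List.map_congr_left h]
  by_cases h : ∀ r ∈ P, r.1 = r.2
  · rw [if_pos h, if_pos (hiff.2 h)]
  · rw [if_neg h, if_neg fun h' => h (hiff.1 h')]

/-- The top coefficient. -/
def gm (q : W × W × W) : ℤ := (X.h q.1 q.2.1 q.2.2).coeff (X.α q.2.2)

open Classical in
theorem claimB (h2 : H_2) (hE : E_1) (hKE : K_E) (hKD : K_D) (hKP : K_P) (hF : F_2)
    (hSA : ∀ n, X.SA n) (hSB : ∀ n, X.SB n) (b : Module.Basis W ℤ[T;T⁻¹] H)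
    (hb : ∀ w, b w = X.D.c w) (hb1 : ∀ w, b.repr (X.D.t w) w = 1)
    (hb2 : ∀ w y, y ≠ w → DegLE (-1) (b.repr (X.D.t w) y))
    (M : ℕ) (x y z : W) (hz : ¬ X.Ge (M + 1) z) :
    ∀ (Q : List (W × W × W)) (P : List (W × W)) (p : ℤ[T;T⁻¹]), (∀ q ∈ Q, QG X q) →
      (∀ r ∈ P, PG X.G r ∧ X.α r.1 = X.α r.2) →
      X.Clq (P.map Prod.snd ++ Q.map fun q => q.2.2) →
      z = x * (P.map Prod.snd ++ Q.map fun q => q.2.2).prod * y →
      X.sl z = X.sl x + (P.length + Q.length) + X.sl y →
      X.aK (P.map Prod.snd ++ Q.map fun q => q.2.2) = M →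
      DegLE (X.aK (P.map Prod.fst)) p →
      psi b M z (p • mid X x y (P.map Prod.fst) Q) =
        if ∀ r ∈ P, r.1 = r.2 then p.coeff (X.aK (P.map Prod.fst) : ℤ) * (Q.map (gm X)).prod
        else 0 := by
  intro Q
  induction Q with
  | nil =>
    intro P p _ hP hK hzx hsl hM hp
    simp only [List.map_nil, List.append_nil, List.length_nil, add_zero] at hK hzx hsl hM
    have ha := aK_fst X fun r hr => (hP r hr).2
    rw [ha, hM] at hp
    rw [base X hE hKE hKD hF hSA hSB b hb hb1 hb2 M x y z hz P p hP hK hzx hsl hM hp]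
    rw [ha, hM, List.map_nil, List.prod_nil, mul_one]
  | cons q Q ih =>
    intro P p hQ hP hK hzx hsl hM hp
    have hQ' : ∀ r ∈ Q, QG X r := fun r hr => hQ r (List.mem_cons_of_mem q hr)
    have hPG : ∀ r ∈ P, PG X.G r := fun r hr => (hP r hr).1
    have hq := hQ q List.mem_cons_self
    obtain ⟨c1, c2, c3, c4, c5⟩ := hq.alpha
    obtain ⟨u, a1, a2, a3, a4, a5⟩ := hq
    obtain ⟨η, h3, h4⟩ := hKP I W V H X u q.1 q.2.1 a1 a2
    rw [List.map_cons] at hK hzx hM
    rw [List.length_cons] at hsl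
    set L := P.map Prod.fst with hL
    have hred : X.Red x (P.map Prod.snd ++ q.2.2 :: Q.map fun q => q.2.2) y := by
      refine red_of X hE hK ?_
      rw [← hzx, hsl, List.length_append, List.length_cons, List.length_map, List.length_map]
    have hredL : X.Red x (L ++ q.2.2 :: Q.map fun q => q.2.2) y := red_fst X hE hPG hred
    rw [mid_cons X x y L q Q η h3, Finset.smul_sum, map_sum]
    -- the induction hypothesis for a new pair
    have hnew : ∀ l, l ∈ X.G u → l ≠ 1 → X.α l = X.α q.2.2 →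
        psi b M z ((p * η l) • mid X x y (L ++ [l]) Q) =
          if (∀ r ∈ P, r.1 = r.2) ∧ l = q.2.2 then
            p.coeff (X.aK L : ℤ) * (η l).coeff (X.α l : ℤ) * (Q.map (gm X)).prod else 0 := by
      intro l hl hl1 hla
      have e1 : (P ++ [(l, q.2.2)]).map Prod.fst = L ++ [l] := by simp [hL]
      have e2 : (P ++ [(l, q.2.2)]).map Prod.snd ++ (Q.map fun q => q.2.2) =
          P.map Prod.snd ++ q.2.2 :: Q.map fun q => q.2.2 := by simp
      have ea : (X.aK (L ++ [l]) : ℤ) = (X.aK L : ℤ) + X.α l := by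
        rw [Ctx.aK_append, Ctx.aK_cons, Ctx.aK_nil]
        push_cast
        ring
      have h5 := ih (P ++ [(l, q.2.2)]) (p * η l) hQ' (by
        intro r hr
        rcases List.mem_append.1 hr with hr | hr
        · exact hP r hr
        · rw [List.mem_singleton] at hr
          rw [hr]
          exact ⟨⟨u, hl, hl1, a3, a4⟩, hla⟩) (by rw [e2]; exact hK) (by rw [e2]; exact hzx)
        (by rw [hsl, List.length_append, List.length_cons, List.length_nil]; omega)
        (by rw [e2]; exact hM) (by rw [e1, ea]; exact hp.mul (h4 l).2.1)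
      rw [e1, ea, coeff_mul_top hp (h4 l).2.1] at h5
      rw [h5]
      have hiff : (∀ r ∈ P ++ [(l, q.2.2)], r.1 = r.2) ↔ (∀ r ∈ P, r.1 = r.2) ∧ l = q.2.2 := by
        constructor
        · intro h
          exact ⟨fun r hr => h r (List.mem_append_left _ hr), h (l, q.2.2) (by simp)⟩
        · rintro ⟨h6, h7⟩ r hr
          rcases List.mem_append.1 hr with hr | hr
          · exact h6 r hr
          · rw [List.mem_singleton] at hr
            rw [hr]
            exact h7
      by_cases h6 : (∀ r ∈ P, r.1 = r.2) ∧ l = q.2.2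
      · rw [if_pos h6, if_pos (hiff.2 h6)]
      · rw [if_neg h6, if_neg fun h7 => h6 (hiff.1 h7)]
    have hval : ∀ l ∈ η.support, psi b M z (p • η l • mid X x y (L ++ [l]) Q) =
        if l = q.2.2 then (if ∀ r ∈ P, r.1 = r.2 then
          p.coeff (X.aK L : ℤ) * (gm X q * (Q.map (gm X)).prod) else 0) else 0 := by
      intro l hl
      obtain ⟨b1, b2, b3, b4⟩ := h4 l
      have hlu := b1 (Finsupp.mem_support_iff.1 hl)
      rw [smul_smul]
      by_cases hlk : l = q.2.2
      · rw [if_pos hlk, hnew l hlu (by rw [hlk]; exact a4) (by rw [hlk]), b3 hlu]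
        by_cases h6 : ∀ r ∈ P, r.1 = r.2
        · rw [if_pos h6, if_pos ⟨h6, hlk⟩]
          unfold gm
          rw [hlk]
          ring
        · rw [if_neg h6, if_neg fun h7 => h6 h7.1]
      · rw [if_neg hlk]
        by_cases h0 : (η l).coeff (X.α l : ℤ) = 0
        · have b5 := degLE_sub_one b2 h0
          by_cases hl1 : l = 1
          · rw [hl1, mid_one X h2]
            rw [hl1, X.a_one] at b5
            have h6 := claimA X h2 hE hKP hSB M x y Q L hQ' (red_drop X hE hredL)
            refine psi_lam X b hb hF hSA hz (h6.smul_le (hp.mul b5) le_rfl ?_)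
            push_cast
            omega
          · have h5 := red_repl_mid X hE a3 hlu hl1 hredL
            have h6 := claimA X h2 hE hKP hSB M x y Q (L ++ [l]) hQ' (by
              rw [List.append_assoc]; exact h5)
            refine psi_lam X b hb hF hSA hz (h6.smul_le (hp.mul b5) le_rfl ?_)
            rw [Ctx.aK_append, Ctx.aK_cons, Ctx.aK_nil]
            push_cast
            omega
        · have h7 := (b4 h0).1
          have h8 : X.α l = X.α q.2.2 := by rw [← h7, c1]
          have hl1 : l ≠ 1 := by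
            intro h
            rw [h, X.a_one] at h8
            omega
          rw [hnew l hlu hl1 h8, if_neg fun h9 => hlk h9.2]
    rw [Finset.sum_congr rfl hval, Finset.sum_ite_eq' η.support, List.map_cons, List.prod_cons]
    rw [if_pos]
    rw [Finsupp.mem_support_iff]
    intro h
    have h6 := (h4 q.2.2).2.2.1 a3
    rw [h] at h6
    exact a5 h6.symm

theorem psi_cc (h2 : H_2) (hF : F_2) (hSA : ∀ n, X.SA n) (hSB : ∀ n, X.SB n)
    (b : Module.Basis W ℤ[T;T⁻¹] H) (hb : ∀ w, b w = X.D.c w) {M : ℕ} {z : W}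
    (hz : ¬ X.Ge (M + 1) z) (x y : W) :
    psi b M z (X.D.c x * X.D.c y) = psi b M z (X.D.t x * X.D.t y) := by
  have h3 := h2 I W H X.M X.cs X.L X.wt X.D
  have hone := h3.2.2.2.1
  have hdeg := h3.2.2.2.2.2.1
  have e : ∀ Z : H, Z = ∑ w ∈ (X.D.t.repr Z).support, X.D.t.repr Z w • X.D.t w := by
    intro Z
    have h := X.D.t.linearCombination_repr Z
    rw [Finsupp.linearCombination_apply] at h
    exact h.symm
  have hd0 : ∀ w v, DegLE 0 (X.D.t.repr (X.D.c w) v) := by
    intro w v
    by_cases h : v = w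
    · rw [h, hone]
      exact DegLE.one le_rfl
    · exact (hdeg w v h).mono (by omega)
  have hterm : ∀ w v, (w ≠ x ∨ v ≠ y) → psi b M z ((X.D.t.repr (X.D.c x) w *
      X.D.t.repr (X.D.c y) v) • (X.D.t w * X.D.t v)) = 0 := by
    intro w v hne
    have h4 := hSB (X.sl w + X.sl v + 1) M w [] v ⟨⟨fun k hk => absurd hk List.not_mem_nil,
      List.Pairwise.nil⟩, by simp, by simp⟩ (by simp)
    unfold Ctx.PB at h4
    have h5 := h4.lam
    simp only [List.map_nil, List.length_nil, List.prod_nil, mul_one, add_zero, Ctx.aK_nil] at h5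
    have h6 := X.eps_nonneg M w [] v
    have h7 : DegLE (-1) (X.D.t.repr (X.D.c x) w * X.D.t.repr (X.D.c y) v) := by
      rcases hne with h | h
      · exact (hdeg x w h).mul_le (hd0 y v) (by omega)
      · exact (hd0 x w).mul_le (hdeg y v h) (by omega)
    refine psi_lam X b hb hF hSA hz (h5.smul_le h7 le_rfl ?_)
    push_cast
    omega
  have hx : x ∈ (X.D.t.repr (X.D.c x)).support := by
    rw [Finsupp.mem_support_iff, hone]
    exact one_ne_zero
  have hy : y ∈ (X.D.t.repr (X.D.c y)).support := by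
    rw [Finsupp.mem_support_iff, hone]
    exact one_ne_zero
  conv_lhs => rw [e (X.D.c x), e (X.D.c y)]
  rw [Finset.sum_mul_sum, map_sum, Finset.sum_eq_single x]
  · rw [map_sum, Finset.sum_eq_single y]
    · rw [smul_mul_smul_comm, hone, hone, mul_one, one_smul]
    · intro v _ hv
      rw [smul_mul_smul_comm]
      exact hterm x v (Or.inr hv)
    · intro h
      exact absurd hy h
  · intro w _ hw
    rw [map_sum]
    refine Finset.sum_eq_zero fun v _ => ?_
    rw [smul_mul_smul_comm]
    exact hterm w v (Or.inl hw)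
  · intro h
    exact absurd hx h

theorem exists_Q : ∀ K : List W, (∀ k ∈ K, k ≠ 1 ∧ ∃ v, k ∈ X.G v) →
    ∃ Q : List (W × W × W), (∀ q ∈ Q, QG X q) ∧ (Q.map fun q => q.2.2) = K := by
  intro K
  induction K with
  | nil => intro _; exact ⟨[], fun q hq => absurd hq List.not_mem_nil, rfl⟩
  | cons k K ih =>
    intro h
    obtain ⟨Q, h1, h2⟩ := ih fun l hl => h l (List.mem_cons_of_mem k hl)
    obtain ⟨hk, v, hv⟩ := h k List.mem_cons_self
    obtain ⟨g, hg, g', hg', h3⟩ := X.low v k hv
    refine ⟨(g, g', k) :: Q, ?_, ?_⟩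
    · intro q hq
      rcases List.mem_cons.1 hq with rfl | hq
      · exact ⟨v, hg, hg', hv, hk, h3⟩
      · exact h1 q hq
    · rw [List.map_cons, h2]

/-- **RA-F4.** -/
theorem h_f4 (h1 : H_1) (h2 : H_2) (h3 : H_3) (hKE : K_E) (hKD : K_D) (hKP : K_P) (hE : E_1)
    (hF : F_2) : F_4 := by
  classical
  intro I W V H _ _ _ X hSA hSB M z hGe hz
  obtain ⟨b, hb, hb1, hb2'⟩ := (h3 I W H X.M X.cs X.L X.wt X.D).1
  have hb2 : ∀ w y, y ≠ w → DegLE (-1) (b.repr (X.D.t w) y) := fun w y h => (hb2' w y h).1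
  obtain ⟨x, K, y, hK, hzx, hsl, hMK⟩ := hGe
  have hMK' : X.aK K = M := by
    refine le_antisymm ?_ hMK
    by_contra h
    exact hz ⟨x, K, y, hK, hzx, hsl, by omega⟩
  obtain ⟨Q, hQ, hQK⟩ := exists_Q X K hK.1
  have hred : X.Red x K y := red_of X hE hK (by rw [← hzx, hsl])
  have hlen : K.length = Q.length := by rw [← hQK, List.length_map]
  -- the lists of the `g` and of the `h`
  have hg : X.Red x (Q.map fun q => q.1) y := by
    have h4 := red_repl X hE (x := x) (y := y) (Q.map fun q => (q.2.2, q.1)) (by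
      intro r hr
      obtain ⟨q, hq, rfl⟩ := List.mem_map.1 hr
      obtain ⟨_, _, _, c4, _⟩ := (hQ q hq).alpha
      obtain ⟨u, a1, a2, a3, a4, a5⟩ := hQ q hq
      exact ⟨u, a3, a4, a1, c4⟩) (by
      rw [List.map_map]
      have : (Q.map (Prod.fst ∘ fun q : W × W × W => (q.2.2, q.1))) = K := hQK
      rw [this]
      exact hred)
    rw [List.map_map] at h4
    exact h4
  have hh : X.Red x (Q.map fun q => q.2.1) y := by
    have h4 := red_repl X hE (x := x) (y := y) (Q.map fun q => (q.2.2, q.2.1)) (by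
      intro r hr
      obtain ⟨q, hq, rfl⟩ := List.mem_map.1 hr
      obtain ⟨_, _, _, _, c5⟩ := (hQ q hq).alpha
      obtain ⟨u, a1, a2, a3, a4, a5⟩ := hQ q hq
      exact ⟨u, a3, a4, a2, c5⟩) (by
      rw [List.map_map]
      have : (Q.map (Prod.fst ∘ fun q : W × W × W => (q.2.2, q.2.1))) = K := hQK
      rw [this]
      exact hred)
    rw [List.map_map] at h4
    exact h4
  have e1 : X.D.t (x * (Q.map fun q => q.1).prod) * X.D.t ((Q.map fun q => q.2.1).prod * y) =
      mid X x y [] Q := by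
    rw [t_left X _ x (fun l hl => (hg.1.1 l hl).2.imp fun v hv => ⟨hv, (hg.1.1 l hl).1⟩) hg.2.1,
      t_right X _ y (fun l hl => (hh.1.1 l hl).2.imp fun v hv => ⟨hv, (hh.1.1 l hl).1⟩) hh.2.2,
      List.map_map, List.map_map]
    have h4 := t_prod X h1 hE Q hQ (by rw [hQK]; exact hK)
    unfold mid
    rw [List.map_nil, List.prod_nil, mul_one, ← h4]
    simp only [mul_assoc]
    rfl
  have h5 := claimB X h2 hE hKE hKD hKP hF hSA hSB b hb hb1 hb2 M x y z hz Q [] 1 hQ
    (fun r hr => absurd hr List.not_mem_nil) (by rw [hQK]; exact hK) (by rw [hQK]; exact hzx)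
    (by rw [hsl, hlen, List.length_nil, zero_add]) (by rw [hQK]; exact hMK')
    (by rw [List.map_nil, Ctx.aK_nil]; exact DegLE.one le_rfl)
  rw [if_pos (fun r hr => absurd hr List.not_mem_nil), one_smul, List.map_nil, ← e1,
    ← psi_cc X h2 hF hSA hSB b hb hz, Ctx.aK_nil] at h5
  refine ⟨x * (Q.map fun q => q.1).prod, (Q.map fun q => q.2.1).prod * y, ?_⟩
  have h6 : b.repr (X.D.c (x * (Q.map fun q => q.1).prod) *
      X.D.c ((Q.map fun q => q.2.1).prod * y)) =
      X.h (x * (Q.map fun q => q.1).prod) ((Q.map fun q => q.2.1).prod * y) := by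
    rw [X.isH]
    have h7 := b.repr_linearCombination
      (X.h (x * (Q.map fun q => q.1).prod) ((Q.map fun q => q.2.1).prod * y))
    rw [Finsupp.linearCombination_apply] at h7
    simp only [hb] at h7
    exact h7
  rw [psi_apply, h6] at h5
  rw [h5]
  refine mul_ne_zero ?_ ?_
  · have : (1 : ℤ[T;T⁻¹]).coeff ((0 : ℕ) : ℤ) = 1 := by
      rw [← T_zero, T_apply]
      simp
    rw [this]
    exact one_ne_zero
  · apply List.prod_ne_zero
    intro h0
    obtain ⟨q, hq, h8⟩ := List.mem_map.1 h0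
    obtain ⟨_, _, _, _, _, h9⟩ := hQ q hq
    exact h9 h8

end Pool.Agent.Helper19.RA
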